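import Pool.Agent.X279.IM.FinInd

/-!
# MP_7a3e68_ag: the algebraic Sato-Tate group when the adjoint module modulo `l` is irreducible

`Γ` is `Γ_{l,F}`, the image of `G_F` in `GL(T_l A)(Z_l)`; `S` is the Weil pairing of a polarization
of degree prime to `l` (alternating, unit determinant); `Γ` is a closed group of similitudes of
`S`. The finite extensions `K/F` correspond to closed subgroups `Δ` of finite index, and
`Δ ⊓ SOrth S` is `Γ^1_{l,K}`.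

* (1) General statement: `G` saturated (for example `G = 𝒢(Z_l)`, `𝒢` a smooth model of the derived
  Mumford-Tate group), the commutators of `Γ` in `G`, the reduction of `Γ` modulo `l` acts
  irreducibly on the Lie algebra of `G` modulo `l` and `Γ ∩ G` is infinite. Then for some `k ≥ 1`
  the elements of `Γ ∩ G` congruent to `1` modulo `l` are exactly the elements of `G` congruent to
  `1` modulo `l ^ k`, and for all `K/F` the group `Δ` contains a congruence subgroup of `G`.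
* (2) `G = Sp(S)(Z_l)`: no hypothesis but the irreducibility of `sp` modulo `l` and the infiniteness
  of `Γ^1_{l,F}`; then for all `K/F` the Zariski closure of `Γ^1_{l,K}` is `Sp` (over all fields
  containing `Z_l`; on the open subset `det (1 + g) ≠ 0`).
* (3) If `l ≥ 4 g` and `l` divides the order of the reduction of `Γ`, then `k = 1` and the
  infiniteness of `Γ^1_{l,F}` holds automatically.
-/

namespace Pool.Agent.Results.MP_7a3e68_ag.CongruenceLevel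

open Pool.Agent.X279.IM Matrix

/-- The elements of `Γ ∩ G` congruent to `1` modulo `p` are exactly the elements of `G` congruent
to `1` modulo `p ^ k`, and `k ≥ 1`. -/
def FullLevel {ι : Type} [Fintype ι] [DecidableEq ι] {p : ℕ} [Fact p.Prime] (k : ℕ)
    (Γ G : Subgroup (GL ι ℤ_[p])) : Prop :=
  1 ≤ k ∧ ∀ g ∈ G, Dv 1 ((g : Matrix ι ι ℤ_[p]) - 1) →
    (g ∈ Γ ↔ Dv k ((g : Matrix ι ι ℤ_[p]) - 1))

/-- The Zariski closure of `Δ ∩ Sp(S)` is `Sp(S)`, for all closed subgroups `Δ` of finite index of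
`Γ`: over every field `K` containing the `p`-adic integers, a polynomial in the entries of a matrix
that vanishes on `Δ ⊓ SOrth S` vanishes on all isometries `g` of `S` with `det (1 + g) ≠ 0`. -/
def SatoTateSp {ι : Type} [Fintype ι] [DecidableEq ι] {p : ℕ} [Fact p.Prime]
    (Γ : Subgroup (GL ι ℤ_[p])) (S : Matrix ι ι ℤ_[p]) : Prop :=
  ∀ Δ : Subgroup (GL ι ℤ_[p]), Δ ≤ Γ → PadicClosed Δ → Δ.relIndex Γ ≠ 0 →
    ∀ (K : Type) [Field K] (φ : ℤ_[p] →+* K), Function.Injective φ →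
    ∀ f : MvPolynomial (ι × ι) K,
    (∀ γ ∈ Δ ⊓ SOrth S, evM ((γ : Matrix ι ι ℤ_[p]).map φ) f = 0) →
    ∀ g : Matrix ι ι K, gᵀ * S.map φ * g = S.map φ → (1 + g).det ≠ 0 → evM g f = 0

theorem full_of_infinite {ι : Type} [Fintype ι] [DecidableEq ι] {p : ℕ} [Fact p.Prime]
    (hp3 : 3 ≤ p) {G Γ : Subgroup (GL ι ℤ_[p])} (hsat : Saturated G)
    (hcomm : ∀ a ∈ Γ, ∀ b ∈ Γ, a * b * a⁻¹ * b⁻¹ ∈ G) (hcl : PadicClosed Γ)
    (hirr : AdjointIrreducible Γ G) (hinf : Infinite (Γ ⊓ G : Subgroup (GL ι ℤ_[p]))) :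
    ∃ k, FullLevel k Γ G := by
  rcases dichotomy hp3 hsat hcomm hcl hirr with h | ⟨k, hk, h⟩
  · exact absurd (finite_of_trivial h) (not_finite_iff_infinite.2 hinf)
  · exact ⟨k, hk, h⟩

theorem satoTate_of_full {ι : Type} [Fintype ι] [DecidableEq ι] {p : ℕ} [Fact p.Prime]
    (hp3 : 3 ≤ p) {Γ : Subgroup (GL ι ℤ_[p])} {S : Matrix ι ι ℤ_[p]} (hS : IsUnit S.det)
    (hT : Sᵀ = -S) {k : ℕ} (h : FullLevel k Γ (SOrth S)) : SatoTateSp Γ S := by
  intro Δ _ hcl hfin K _ φ hφ f hf g hg hdet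
  obtain ⟨hk, h⟩ := h
  obtain ⟨m, hm, hΔ⟩ := finite_index hp3 (saturated_SOrth hp3 hS.ne_zero) hk
    (fun g hg hgk => (h g hg (hgk.mono hk)).2 hgk) hcl hfin
  refine zariski_dense hS (ε := -1) (by norm_num) (by rw [hT, neg_one_smul])
    (k := m) (hk.trans hm) φ hφ f ?_ g hg hdet
  intro γ hγ hd
  exact hf γ (Subgroup.mem_inf.2 ⟨hΔ γ hγ hd, hγ⟩)

theorem result :
    -- (1)
    (∀ (ι : Type) [Fintype ι] [DecidableEq ι] (p : ℕ) [Fact p.Prime], 3 ≤ p →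
      ∀ G Γ : Subgroup (GL ι ℤ_[p]), Saturated G →
      (∀ a ∈ Γ, ∀ b ∈ Γ, a * b * a⁻¹ * b⁻¹ ∈ G) → PadicClosed Γ → AdjointIrreducible Γ G →
      Infinite (Γ ⊓ G : Subgroup (GL ι ℤ_[p])) →
      (∃ k, FullLevel k Γ G) ∧
      ∀ Δ : Subgroup (GL ι ℤ_[p]), Δ ≤ Γ → PadicClosed Δ → Δ.relIndex Γ ≠ 0 →
        ∃ m, 1 ≤ m ∧ ∀ g ∈ G, Dv m ((g : Matrix ι ι ℤ_[p]) - 1) → g ∈ Δ) ∧
    -- (2)
    (∀ (ι : Type) [Fintype ι] [DecidableEq ι] (p : ℕ) [Fact p.Prime], 3 ≤ p →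
      ∀ S : Matrix ι ι ℤ_[p], Sᵀ = -S → IsUnit S.det →
      ∀ Γ : Subgroup (GL ι ℤ_[p]), (∀ γ ∈ Γ, IsSimilitude S γ) → PadicClosed Γ →
      IrreducibleOnSp Γ S → Infinite (Γ ⊓ SOrth S : Subgroup (GL ι ℤ_[p])) →
      (∃ k, FullLevel k Γ (SOrth S)) ∧ SatoTateSp Γ S) ∧
    -- (3)
    (∀ (ι : Type) [Fintype ι] [DecidableEq ι] (p : ℕ) [Fact p.Prime], 3 ≤ p →
      2 * Fintype.card ι ≤ p →
      ∀ S : Matrix ι ι ℤ_[p], Sᵀ = -S → IsUnit S.det →
      ∀ Γ : Subgroup (GL ι ℤ_[p]), (∀ γ ∈ Γ, IsSimilitude S γ) → PadicClosed Γ →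
      IrreducibleOnSp Γ S → p ∣ Nat.card (Γ.map red) →
      FullLevel 1 Γ (SOrth S) ∧ SatoTateSp Γ S) := by
  refine ⟨?_, ?_, ?_⟩
  · intro ι _ _ p _ hp3 G Γ hsat hcomm hcl hirr hinf
    have h0 := full_of_infinite hp3 hsat hcomm hcl hirr hinf
    refine ⟨h0, ?_⟩
    intro Δ _ hclΔ hfin
    obtain ⟨k, hk, h⟩ := h0
    obtain ⟨m, hm, hΔ⟩ := finite_index hp3 hsat hk
      (fun g hg hgk => (h g hg (hgk.mono hk)).2 hgk) hclΔ hfin
    exact ⟨m, hk.trans hm, hΔ⟩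
  · intro ι _ _ p _ hp3 S hT hS Γ hsim hcl hirr hinf
    have hcomm : ∀ a ∈ Γ, ∀ b ∈ Γ, a * b * a⁻¹ * b⁻¹ ∈ SOrth S := fun a ha b hb =>
      comm_mem_SOrth (hsim a ha) (hsim b hb)
    have h0 := full_of_infinite hp3 (saturated_SOrth hp3 hS.ne_zero) hcomm hcl
      (adjointIrreducible_of_sp hirr) hinf
    obtain ⟨k, h⟩ := h0
    exact ⟨⟨k, h⟩, satoTate_of_full hp3 hS hT h⟩
  · intro ι _ _ p _ hp3 hn S hT hS Γ hsim hcl hirr hdvd
    obtain ⟨hne, -⟩ := exists_unip hn hdvd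
    have h1 : FullLevel 1 Γ (SOrth S) := ⟨le_rfl, fun g hg hg1 => ⟨fun _ => hg1, fun _ =>
      simil_kernel hp3 hS hn hsim hcl hdvd (irreducibleOnIsoLie_of_sp hp3 hS hT hirr) g hg hg1⟩⟩
    exact ⟨h1, satoTate_of_full hp3 hS hT h1⟩

end Pool.Agent.Results.MP_7a3e68_ag.CongruenceLevel
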